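import Mathlib

/-!
# Signed `B_h` sets of size three in cyclic groups

Day's sets `{1, h, h² + h + 1}` (`h` even) and `{2, h, h² + h + 4}` (`h` odd) are `B_h` sets over
`ℤ` in `ℤ_n` for all large `n`, and hence `g_±(3, h) ≤ 2h³ + 2h² + 8h + 1` for every `h ≥ 1`.
-/

set_option autoImplicit false

open Finset

namespace Pool.Agent.Results.MP_66a881_co.DayBound

/-- `A ⊆ ℤ_n` is a `B_h` set over `ℤ`: the map `λ ↦ ∑ λ_a a` is injective on the integer
coefficient vectors `λ` (indexed by `A`) with `∑ |λ_a| = h`. -/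
def IsSignedBh {n : ℕ} (h : ℕ) (A : Finset (ZMod n)) : Prop :=
  ∀ c d : ZMod n → ℤ, ∑ a ∈ A, |c a| = (h : ℤ) → ∑ a ∈ A, |d a| = (h : ℤ) →
    ∑ a ∈ A, c a • a = ∑ a ∈ A, d a • a → ∀ a ∈ A, c a = d a

/-- `σ_±(ℤ_n, h)`: the largest size of a `B_h` set over `ℤ` in `ℤ_n`. -/
noncomputable def sigmaPM (n h : ℕ) : ℕ :=
  sSup {m | ∃ A : Finset (ZMod n), A.card = m ∧ IsSignedBh h A}

/-- `g_±(m, h)`: the least positive integer `g` such that `σ_±(ℤ_n, h) ≥ m` for every `n ≥ g`. -/
noncomputable def gPM (m h : ℕ) : ℕ :=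
  sInf {g | 0 < g ∧ ∀ n : ℕ, g ≤ n → m ≤ sigmaPM n h}

theorem even_case (h x y z : ℤ) (hh : 2 ≤ h) (he : Even h) (hpar : Even (x + y + z))
    (hb : |x| + |y| + |z| ≤ 2 * h) (hrel : x + h * y + (h ^ 2 + h + 1) * z = 0) :
    x = 0 ∧ y = 0 ∧ z = 0 := by
  have hx := abs_nonneg x
  have hy := abs_nonneg y
  have hz := abs_nonneg z
  have h1 : (h ^ 2 + h + 1) * |z| ≤ |x| + h * |y| := by
    have e : (h ^ 2 + h + 1) * |z| = |x + h * y| := by
      have : x + h * y = -((h ^ 2 + h + 1) * z) := by linarith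
      rw [this, abs_neg, abs_mul, abs_of_pos (by nlinarith : (0 : ℤ) < h ^ 2 + h + 1)]
    rw [e]
    calc |x + h * y| ≤ |x| + |h * y| := abs_add_le _ _
      _ = |x| + h * |y| := by rw [abs_mul, abs_of_nonneg (by linarith : (0 : ℤ) ≤ h)]
  have hz1 : |z| ≤ 1 := by
    by_contra hcon
    push Not at hcon
    have h2 : 2 ≤ |z| := hcon
    nlinarith [mul_le_mul_of_nonneg_left h2 (by nlinarith : (0 : ℤ) ≤ h ^ 2 + 2 * h + 1),
      mul_le_mul_of_nonneg_left hb (by linarith : (0 : ℤ) ≤ h),
      mul_le_mul_of_nonneg_right hh hx]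
  have hev : Even (x + z) := by
    obtain ⟨l, hl⟩ := he
    have : x + z = -(h * y + h ^ 2 * z + h * z) := by linarith
    rw [this, even_neg]
    rw [hl]
    exact ⟨l * y + l * (l + l) * z + l * z, by ring⟩
  have hyev : Even y := by
    have e : y = (x + y + z) - (x + z) := by ring
    rw [e]; exact hpar.sub hev
  have key : ∀ x y : ℤ, Even y → |x| + |y| + 1 ≤ 2 * h →
      x + h * y + (h ^ 2 + h + 1) = 0 → False := by
    intro x y hyev hb hrel
    have hk : ∃ k : ℤ, y = -(h + 1) - k := ⟨-(h + 1) - y, by ring⟩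
    obtain ⟨k, rfl⟩ := hk
    have hx' : x = h * k - 1 := by nlinarith
    subst hx'
    have hk0 : k ≠ 0 := by
      rintro rfl
      obtain ⟨l, hl⟩ := he
      obtain ⟨l', hl'⟩ := hyev
      omega
    rcases lt_or_gt_of_ne hk0 with hneg | hpos
    · have a1 := neg_abs_le (h * k - 1)
      have a2 := neg_abs_le (-(h + 1) - k)
      nlinarith [mul_le_mul_of_nonneg_left (by omega : k ≤ -1) (by linarith : (0 : ℤ) ≤ h - 1)]
    · have a1 := le_abs_self (h * k - 1)
      have a2 := neg_abs_le (-(h + 1) - k)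
      nlinarith [mul_le_mul_of_nonneg_left (by omega : 1 ≤ k) (by linarith : (0 : ℤ) ≤ h)]
  rw [abs_le] at hz1
  obtain hz0 | hz0 | hz0 : z = -1 ∨ z = 0 ∨ z = 1 := by omega
  · exfalso
    subst hz0
    apply key (-x) (-y) hyev.neg
    · simpa using hb
    · linarith
  · subst hz0
    simp only [mul_zero, add_zero] at hrel
    simp only [abs_zero, add_zero] at hb
    have hx' : x = -(h * y) := by linarith
    have hy0 : y = 0 := by
      by_contra hne
      obtain ⟨l, hl⟩ := hyev
      have h2 : 2 ≤ |y| := by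
        rcases lt_or_gt_of_ne hne with h' | h'
        · have := neg_abs_le y; omega
        · have := le_abs_self y; omega
      rw [hx', abs_neg, abs_mul, abs_of_nonneg (by linarith : (0 : ℤ) ≤ h)] at hb
      nlinarith
    subst hy0
    simp at hx'
    exact ⟨hx', rfl, rfl⟩
  · exfalso
    subst hz0
    apply key x y hyev
    · simpa using hb
    · linarith

theorem odd_case (h x y z : ℤ) (hh : 1 ≤ h) (ho : Odd h) (hpar : Even (x + y + z))
    (hb : |x| + |y| + |z| ≤ 2 * h) (hrel : 2 * x + h * y + (h ^ 2 + h + 4) * z = 0) :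
    x = 0 ∧ y = 0 ∧ z = 0 := by
  have hx := abs_nonneg x
  have hy := abs_nonneg y
  have hz := abs_nonneg z
  have h1 : (h ^ 2 + h + 4) * |z| ≤ 2 * |x| + h * |y| := by
    have e : (h ^ 2 + h + 4) * |z| = |2 * x + h * y| := by
      have : 2 * x + h * y = -((h ^ 2 + h + 4) * z) := by linarith
      rw [this, abs_neg, abs_mul, abs_of_pos (by nlinarith : (0 : ℤ) < h ^ 2 + h + 4)]
    rw [e]
    calc |2 * x + h * y| ≤ |2 * x| + |h * y| := abs_add_le _ _
      _ = 2 * |x| + h * |y| := by
        rw [abs_mul, abs_mul, abs_of_nonneg (by linarith : (0 : ℤ) ≤ h)]; norm_num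
  have h3 : h = 1 ∨ 3 ≤ h := by
    obtain ⟨l, hl⟩ := ho; omega
  have hz1 : |z| ≤ 1 ∧ (h = 1 → |z| = 0) := by
    constructor
    · by_contra hcon
      push Not at hcon
      have h2 : 2 ≤ |z| := hcon
      rcases h3 with rfl | h3
      · linarith
      · nlinarith [mul_le_mul_of_nonneg_left h2 (by nlinarith : (0 : ℤ) ≤ h ^ 2 + 2 * h + 4),
          mul_le_mul_of_nonneg_left hb (by linarith : (0 : ℤ) ≤ h),
          mul_le_mul_of_nonneg_right (by linarith : (2 : ℤ) ≤ h) hx]
    · rintro rfl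
      omega
  obtain ⟨hz1, hz2⟩ := hz1
  have hyev : Even y := by
    have h4 : Even (h * y) := by
      have e : h * y = -(2 * x + (h ^ 2 + h + 4) * z) := by linarith
      rw [e, even_neg]
      have h5 : Even (h ^ 2 + h + 4) := by
        obtain ⟨l, hl⟩ := ho
        exact ⟨2 * l ^ 2 + 3 * l + 3, by rw [hl]; ring⟩
      exact (even_two_mul x).add (h5.mul_right z)
    rcases Int.even_mul.1 h4 with h5 | h5
    · exact absurd h5 (Int.not_even_iff_odd.2 ho)
    · exact h5
  have hxz : Even (x + z) := by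
    have e : x + z = (x + y + z) - y := by ring
    rw [e]; exact hpar.sub hyev
  have key : 3 ≤ h → ∀ x y : ℤ, Even y → Odd x → |x| + |y| + 1 ≤ 2 * h →
      2 * x + h * y + (h ^ 2 + h + 4) = 0 → False := by
    intro h3 x y hyev hxo hb hrel
    obtain ⟨l, hl⟩ := ho
    obtain ⟨m, hm⟩ := hyev
    have hj : ∃ j : ℤ, y = -(h + 1) - 2 * j := ⟨-(l + 1) - m, by rw [hl, hm]; ring⟩
    obtain ⟨j, hj⟩ := hj
    have hx' : x = h * j - 2 := by
      rw [hj] at hrel
      nlinarith
    have hj0 : j ≠ 0 := by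
      rintro rfl
      rw [mul_zero] at hx'
      obtain ⟨p, hp⟩ := hxo
      omega
    rw [hx', hj] at hb
    rcases lt_or_gt_of_ne hj0 with hneg | hpos
    · have a1 := neg_abs_le (h * j - 2)
      have a2 := neg_abs_le (-(h + 1) - 2 * j)
      nlinarith [mul_le_mul_of_nonneg_left (by omega : j ≤ -1) (by linarith : (0 : ℤ) ≤ h - 2)]
    · have a1 := le_abs_self (h * j - 2)
      have a2 := neg_abs_le (-(h + 1) - 2 * j)
      nlinarith [mul_le_mul_of_nonneg_left (by omega : 1 ≤ j) (by linarith : (0 : ℤ) ≤ h)]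
  have h3' : |z| = 1 → 3 ≤ h := by
    intro hz'
    rcases h3 with h4 | h4
    · rw [hz2 h4] at hz'; omega
    · exact h4
  rw [abs_le] at hz1
  obtain hz0 | hz0 | hz0 : z = -1 ∨ z = 0 ∨ z = 1 := by omega
  · exfalso
    subst hz0
    apply key (h3' (by norm_num)) (-x) (-y) hyev.neg
    · obtain ⟨l, hl⟩ := hxz
      exact ⟨-l - 1, by omega⟩
    · simpa using hb
    · linarith
  · subst hz0
    simp only [mul_zero, add_zero] at hrel
    simp only [abs_zero, add_zero] at hb hxz
    obtain ⟨m, hm⟩ := hyev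
    have hx' : x = -(h * m) := by
      rw [hm] at hrel; linarith
    have hm0 : m = 0 := by
      by_contra hne
      have hmev : Even m := by
        have : Even (h * m) := by
          have : h * m = -x := by linarith
          rw [this]; exact hxz.neg
        rcases Int.even_mul.1 this with h5 | h5
        · exact absurd h5 (Int.not_even_iff_odd.2 ho)
        · exact h5
      obtain ⟨l, hl⟩ := hmev
      have h2 : 2 ≤ |m| := by
        rcases lt_or_gt_of_ne hne with h' | h'
        · have := neg_abs_le m; omega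
        · have := le_abs_self m; omega
      have hyy : |y| = 2 * |m| := by
        rw [hm, ← two_mul, abs_mul]; norm_num
      rw [hx', abs_neg, abs_mul, abs_of_nonneg (by linarith : (0 : ℤ) ≤ h), hyy] at hb
      nlinarith
    subst hm0
    simp at hx' hm
    exact ⟨hx', hm, rfl⟩
  · exfalso
    subst hz0
    apply key (h3' (by norm_num)) x y hyev
    · obtain ⟨l, hl⟩ := hxz
      exact ⟨l - 1, by omega⟩
    · simpa using hb
    · linarith

theorem parity_abs (a : ℤ) : ∃ l : ℤ, |a| = a + 2 * l := by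
  rcases abs_choice a with h | h
  · exact ⟨0, by rw [h]; ring⟩
  · exact ⟨-a, by rw [h]; ring⟩

/-- General transfer: three positive integers whose relations are controlled give a `B_h` set. -/
theorem isBh_of (h : ℕ) (p q r : ℕ) (n : ℕ) (hpr : p ≤ r) (hqr : q ≤ r) (hpq' : p ≠ q)
    (hpr' : p ≠ r) (hqr' : q ≠ r) (hn : 2 * h * r < n) (hrn : r < n)
    (hrel : ∀ x y z : ℤ, Even (x + y + z) → |x| + |y| + |z| ≤ 2 * h →
      x * p + y * q + z * r = 0 → x = 0 ∧ y = 0 ∧ z = 0) :
    ∃ A : Finset (ZMod n), A.card = 3 ∧ IsSignedBh h A := by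
  classical
  have hne : ∀ a b : ℕ, a ≤ r → b ≤ r → a ≠ b → ((a : ZMod n) ≠ (b : ZMod n)) := by
    intro a b ha hb hab heq
    rw [ZMod.natCast_eq_natCast_iff'] at heq
    rw [Nat.mod_eq_of_lt (by omega), Nat.mod_eq_of_lt (by omega)] at heq
    exact hab heq
  have h1 := hne p q hpr hqr hpq'
  have h2 := hne p r hpr le_rfl hpr'
  have h3 := hne q r hqr le_rfl hqr'
  have hsum : ∀ {M : Type} [AddCommMonoid M] (f : ZMod n → M),
      ∑ a ∈ ({(p : ZMod n), (q : ZMod n), (r : ZMod n)} : Finset (ZMod n)), f a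
        = f p + (f q + f r) := by
    intro M _ f
    rw [sum_insert (by simp [h1, h2]), sum_insert (by simp [h3]), sum_singleton]
  refine ⟨{(p : ZMod n), (q : ZMod n), (r : ZMod n)}, ?_, ?_⟩
  · rw [card_insert_of_notMem (by simp [h1, h2]), card_insert_of_notMem (by simp [h3]),
      card_singleton]
  · intro c d hc hd hcd
    rw [hsum] at hc hd
    rw [hsum, hsum] at hcd
    set x := c p - d p with hx
    set y := c q - d q with hy
    set z := c r - d r with hz
    have hxl : |x| ≤ |c p| + |d p| := abs_sub _ _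
    have hyl : |y| ≤ |c q| + |d q| := abs_sub _ _
    have hzl : |z| ≤ |c r| + |d r| := abs_sub _ _
    have hpar : Even (x + y + z) := by
      obtain ⟨l1, e1⟩ := parity_abs (c p)
      obtain ⟨l2, e2⟩ := parity_abs (c q)
      obtain ⟨l3, e3⟩ := parity_abs (c r)
      obtain ⟨l4, e4⟩ := parity_abs (d p)
      obtain ⟨l5, e5⟩ := parity_abs (d q)
      obtain ⟨l6, e6⟩ := parity_abs (d r)
      exact ⟨l4 + l5 + l6 - l1 - l2 - l3, by omega⟩
    have hle : |x| + |y| + |z| ≤ 2 * h := by linarith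
    have hzero : ((x * p + y * q + z * r : ℤ) : ZMod n) = 0 := by
      push_cast
      have e : c (p : ZMod n) • (p : ZMod n) + (c (q : ZMod n) • (q : ZMod n)
          + c (r : ZMod n) • (r : ZMod n)) - (d (p : ZMod n) • (p : ZMod n)
          + (d (q : ZMod n) • (q : ZMod n) + d (r : ZMod n) • (r : ZMod n))) = 0 := by
        rw [hcd, sub_self]
      simp only [zsmul_eq_mul] at e
      rw [hx, hy, hz]
      push_cast
      linear_combination e
    rw [ZMod.intCast_zmod_eq_zero_iff_dvd] at hzero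
    have habs : |x * p + y * q + z * r| < (n : ℤ) := by
      have hp0 : (0 : ℤ) ≤ p := by positivity
      have hq0 : (0 : ℤ) ≤ q := by positivity
      have hr0 : (0 : ℤ) ≤ r := by positivity
      have hpr0 : (p : ℤ) ≤ r := by exact_mod_cast hpr
      have hqr0 : (q : ℤ) ≤ r := by exact_mod_cast hqr
      calc |x * p + y * q + z * r| ≤ |x * p + y * q| + |z * r| := abs_add_le _ _
        _ ≤ |x * p| + |y * q| + |z * r| := by linarith [abs_add_le (x * p) (y * q)]
        _ = |x| * p + |y| * q + |z| * r := by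
          rw [abs_mul, abs_mul, abs_mul, abs_of_nonneg hp0, abs_of_nonneg hq0, abs_of_nonneg hr0]
        _ ≤ |x| * r + |y| * r + |z| * r := by
          have := mul_le_mul_of_nonneg_left hpr0 (abs_nonneg x)
          have := mul_le_mul_of_nonneg_left hqr0 (abs_nonneg y)
          linarith
        _ = (|x| + |y| + |z|) * r := by ring
        _ ≤ (2 * h) * r := mul_le_mul_of_nonneg_right hle hr0
        _ < n := by exact_mod_cast hn
    have hz0 := Int.eq_zero_of_abs_lt_dvd hzero habs
    obtain ⟨ex, ey, ez⟩ := hrel x y z hpar hle hz0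
    intro a ha
    simp only [mem_insert, mem_singleton] at ha
    rcases ha with rfl | rfl | rfl
    · linarith
    · linarith
    · linarith

theorem exists_three (h : ℕ) (hh : 1 ≤ h) (n : ℕ) (hn : 2 * h ^ 3 + 2 * h ^ 2 + 8 * h + 1 ≤ n) :
    ∃ A : Finset (ZMod n), A.card = 3 ∧ IsSignedBh h A := by
  rcases Nat.even_or_odd h with he | ho
  · have h2 : 2 ≤ h := by
      obtain ⟨l, hl⟩ := he; omega
    refine isBh_of h 1 h (h ^ 2 + h + 1) n (by omega) (by omega) (by omega) (by omega) (by omega)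
      (by nlinarith) (by nlinarith) ?_
    intro x y z hp hb hrel
    push_cast at hrel
    refine even_case h x y z (by exact_mod_cast h2) (by exact_mod_cast he) hp hb ?_
    linear_combination hrel
  · have h1 : (1 : ℤ) ≤ h := by exact_mod_cast hh
    have hlt : h < h ^ 2 + h + 4 := by
      have := Nat.zero_le (h ^ 2)
      omega
    have h22 : 2 ≠ h := by
      obtain ⟨l, hl⟩ := ho; omega
    refine isBh_of h 2 h (h ^ 2 + h + 4) n (by omega) (by omega) h22 (by omega) (by omega)
      (by nlinarith) (by nlinarith) ?_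
    intro x y z hp hb hrel
    push_cast at hrel
    refine odd_case h x y z h1 (by exact_mod_cast ho) hp hb ?_
    linear_combination hrel

/-- Day's conjectured bound: `g_±(3, h) ≤ 2h³ + 2h² + 8h + 1` for every positive integer `h`. -/
theorem result : ∀ h : ℕ, 1 ≤ h →
    (∀ n : ℕ, 2 * h ^ 3 + 2 * h ^ 2 + 8 * h + 1 ≤ n → 3 ≤ sigmaPM n h) ∧
      gPM 3 h ≤ 2 * h ^ 3 + 2 * h ^ 2 + 8 * h + 1 := by
  intro h hh
  have key : ∀ n : ℕ, 2 * h ^ 3 + 2 * h ^ 2 + 8 * h + 1 ≤ n → 3 ≤ sigmaPM n h := by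
    intro n hn
    have : NeZero n := ⟨by omega⟩
    obtain ⟨A, hA, hBh⟩ := exists_three h hh n hn
    refine le_csSup ⟨n, ?_⟩ ⟨A, hA, hBh⟩
    rintro m ⟨B, rfl, _⟩
    calc B.card ≤ Fintype.card (ZMod n) := card_le_univ B
      _ = n := ZMod.card n
  exact ⟨key, Nat.sInf_le ⟨by omega, key⟩⟩

end Pool.Agent.Results.MP_66a881_co.DayBound
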